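import Mathlib
import Pool.Agent.H3.BI.Stm1

/-!
# Part PAR of project BD: the parameters of the potential
-/

set_option autoImplicit false

open scoped ENNReal
open Finset MeasureTheory

namespace Pool.Agent.H61.BD

open Pool.Agent.H3.BI

theorem nsq_neg' {d : ℕ} (x : Site d) : nsq (-x) = nsq x := by
  unfold nsq
  apply Finset.sum_congr rfl
  intro i _
  rw [Pi.neg_apply, Int.cast_neg, neg_sq]

/-- the kernel -/
noncomputable def kk (d : ℕ) (a : ℝ) (x : Site d) : ℝ := (nsq x + a) ^ (-bt d)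

theorem PP_eq_PR {d : ℕ} (a : ℝ) (x : Site d) :
    PP (kk d a) x = PR (fun v => (qr v + a) ^ (-bt d)) (fun i => (x i : ℝ)) := by
  unfold PP PR
  congr 1
  apply Finset.sum_congr rfl
  intro e _
  unfold kk
  congr 2
  unfold nsq qr
  apply Finset.sum_congr rfl
  intro i _
  congr 1
  rw [Pi.add_apply, Pi.add_apply, Int.cast_add]
  congr 1
  unfold uvec rvec
  by_cases hi : i = e.1
  · subst hi
    rw [Pi.single_eq_same, Pi.single_eq_same]
    split_ifs <;> simp
  · rw [Pi.single_eq_of_ne hi, Pi.single_eq_of_ne hi]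
    simp

theorem bt_pos {d : ℕ} (hd : 3 ≤ d) : 0 < bt d := by
  unfold bt
  have : (3 : ℝ) ≤ d := by exact_mod_cast hd
  linarith

theorem kk_pos {d : ℕ} {a : ℝ} (ha : 0 < a) (x : Site d) : 0 < kk d a x := by
  unfold kk
  exact Real.rpow_pos_of_pos (add_pos_of_nonneg_of_pos (nsq_nonneg x) ha) _

/-- the lower bound of the Laplacian -/
theorem lap_lower (hK : S_KDI) {d : ℕ} (hd : 3 ≤ d) : ∃ C : ℝ, 1 ≤ C ∧ ∀ (L : ℝ) (x : Site d),
    2 ≤ L → 2 * C ≤ bt d * L ^ 2 →
    bt d / 2 * L ^ 2 * (nsq x + L ^ 2) ^ (-bt d - 2) ≤ kk d (L ^ 2) x - PP (kk d (L ^ 2)) x := by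
  obtain ⟨C, hC, h⟩ := hK d (bt d) hd (bt_pos hd)
  refine ⟨C, hC, ?_⟩
  intro L x hL hCL
  have hb := bt_pos hd
  have hn := nsq_nonneg x
  have hqr : qr (fun i => (x i : ℝ)) = nsq x := rfl
  have hL2 : 4 ≤ L ^ 2 := by nlinarith
  have h1 := h (L ^ 2) (fun i => (x i : ℝ)) (by rw [hqr]; linarith) (by
    rw [hqr]
    have h2 := Real.sq_sqrt hn
    have h3 := Real.sqrt_nonneg (nsq x)
    nlinarith [sq_nonneg (Real.sqrt (nsq x) - L)]) (by rw [hqr]; linarith)
  rw [hqr, ← PP_eq_PR] at h1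
  have hd' : (d : ℝ) ≠ 0 := by
    have : 0 < d := by omega
    exact_mod_cast this.ne'
  have h2 : bt d * (d - 2 - 2 * bt d) / d = 0 := by
    unfold bt
    ring
  have h3 : 2 * bt d * (bt d + 1) * L ^ 2 / d = bt d * L ^ 2 := by
    have : bt d + 1 = d / 2 := by unfold bt; ring
    rw [this]
    field_simp
  rw [h2, h3, zero_mul, zero_add] at h1
  have h4 := (abs_le.1 h1).1
  have h5 : 0 < (nsq x + L ^ 2) ^ (-bt d - 2) :=
    Real.rpow_pos_of_pos (by linarith) _
  have h6 : kk d (L ^ 2) x = (nsq x + L ^ 2) ^ (-bt d) := rfl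
  rw [← h6] at h4
  nlinarith

theorem nsq_le_l1 {d : ℕ} (x : Site d) : nsq x ≤ (l1 x : ℝ) ^ 2 := by
  have h1 : ∀ i, (x i : ℝ) ^ 2 ≤ ((x i).natAbs : ℝ) * (l1 x : ℝ) := by
    intro i
    have h2 : ((x i).natAbs : ℝ) ≤ (l1 x : ℝ) := by
      have : (x i).natAbs ≤ l1 x :=
        Finset.single_le_sum (f := fun i => (x i).natAbs) (fun _ _ => Nat.zero_le _)
          (Finset.mem_univ i)
      exact_mod_cast this
    have h3 : (x i : ℝ) ^ 2 = ((x i).natAbs : ℝ) ^ 2 := by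
      rw [Nat.cast_natAbs, Int.cast_abs, sq_abs]
    rw [h3, pow_two]
    exact mul_le_mul_of_nonneg_left h2 (Nat.cast_nonneg _)
  unfold nsq
  calc ∑ i, (x i : ℝ) ^ 2 ≤ ∑ i, ((x i).natAbs : ℝ) * (l1 x : ℝ) :=
        Finset.sum_le_sum (fun i _ => h1 i)
    _ = (l1 x : ℝ) ^ 2 := by
        rw [← Finset.sum_mul, pow_two]
        congr 1
        unfold l1
        push_cast
        rfl

/-- the sum over a set containing a ball of the `ℓ¹` norm -/
theorem sum_lower (hK : S_KDI) {d : ℕ} (hd : 3 ≤ d) : ∃ C c : ℝ, 1 ≤ C ∧ 0 < c ∧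
    ∀ m : ℕ, 1 ≤ m → 2 * C ≤ bt d * ((d * m : ℕ) : ℝ) ^ 2 →
    (∀ x, PP (kk d (((d * m : ℕ) : ℝ) ^ 2)) x ≤ kk d (((d * m : ℕ) : ℝ) ^ 2) x) ∧
    ∀ Y : Finset (Site d), (∀ y, l1 y ≤ d * m → y ∈ Y) →
      c ≤ ∑ y ∈ Y, (kk d (((d * m : ℕ) : ℝ) ^ 2) y - PP (kk d (((d * m : ℕ) : ℝ) ^ 2)) y) := by
  classical
  obtain ⟨C, hC, h⟩ := lap_lower hK hd
  have hb := bt_pos hd
  have hd0 : (0 : ℝ) < d := by
    have : 0 < d := by omega
    exact_mod_cast this
  refine ⟨C, bt d / 2 * 2 ^ (-bt d - 2) * ((d : ℝ) ^ d)⁻¹, hC, by positivity, ?_⟩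
  intro m hm hCm
  set L : ℝ := ((d * m : ℕ) : ℝ) with hL
  have hL3 : 3 ≤ L := by
    have : 3 ≤ d * m := by nlinarith
    rw [hL]
    exact_mod_cast this
  have hLpos : 0 < L := by linarith
  have hlow : ∀ x : Site d, bt d / 2 * L ^ 2 * (nsq x + L ^ 2) ^ (-bt d - 2) ≤
      kk d (L ^ 2) x - PP (kk d (L ^ 2)) x := fun x => h L x (by linarith) hCm
  have hnn : ∀ x : Site d, 0 ≤ kk d (L ^ 2) x - PP (kk d (L ^ 2)) x := by
    intro x
    refine le_trans ?_ (hlow x)
    have : 0 < (nsq x + L ^ 2) ^ (-bt d - 2) :=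
      Real.rpow_pos_of_pos (by have := nsq_nonneg x; positivity) _
    positivity
  refine ⟨fun x => sub_nonneg.1 (hnn x), ?_⟩
  intro Y hY
  -- the box
  let Z : Finset (Site d) := Fintype.piFinset fun _ : Fin d => Finset.Icc (0 : ℤ) m
  have hZ : ∀ y ∈ Z, l1 y ≤ d * m := by
    intro y hy
    rw [Fintype.mem_piFinset] at hy
    unfold l1
    calc ∑ i, (y i).natAbs ≤ ∑ _i : Fin d, m := by
          apply Finset.sum_le_sum
          intro i _
          have := Finset.mem_Icc.1 (hy i)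
          omega
      _ = d * m := by rw [Finset.sum_const, Finset.card_univ, Fintype.card_fin, smul_eq_mul]
  have hcardZ : Z.card = (m + 1) ^ d := by
    rw [Fintype.card_piFinset, Finset.prod_const, Finset.card_univ, Fintype.card_fin, Int.card_Icc]
    congr 1
  have hterm : ∀ y ∈ Z, bt d / 2 * 2 ^ (-bt d - 2) * (L ^ d)⁻¹ ≤
      kk d (L ^ 2) y - PP (kk d (L ^ 2)) y := by
    intro y hy
    refine le_trans ?_ (hlow y)
    have h1 : nsq y ≤ L ^ 2 := by
      refine (nsq_le_l1 y).trans ?_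
      have h2 : (l1 y : ℝ) ≤ L := by
        rw [hL]
        exact_mod_cast hZ y hy
      have h3 : (0 : ℝ) ≤ l1 y := Nat.cast_nonneg _
      nlinarith
    have h2 : (2 * L ^ 2) ^ (-bt d - 2) ≤ (nsq y + L ^ 2) ^ (-bt d - 2) := by
      apply Real.rpow_le_rpow_of_nonpos
      · have := nsq_nonneg y
        positivity
      · linarith
      · linarith
    have h3 : (2 * L ^ 2) ^ (-bt d - 2) = 2 ^ (-bt d - 2) * ((L ^ d)⁻¹ * (L ^ 2)⁻¹) := by
      rw [Real.mul_rpow (by norm_num) (by positivity)]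
      congr 1
      rw [← Real.rpow_natCast L 2, ← Real.rpow_mul hLpos.le, ← Real.rpow_natCast L d,
        ← Real.rpow_neg hLpos.le, ← Real.rpow_neg hLpos.le, ← Real.rpow_add hLpos]
      congr 1
      unfold bt
      push_cast
      ring
    calc bt d / 2 * 2 ^ (-bt d - 2) * (L ^ d)⁻¹
        = bt d / 2 * L ^ 2 * (2 ^ (-bt d - 2) * ((L ^ d)⁻¹ * (L ^ 2)⁻¹)) := by
          field_simp
      _ ≤ bt d / 2 * L ^ 2 * (nsq y + L ^ 2) ^ (-bt d - 2) := by
          rw [← h3]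
          exact mul_le_mul_of_nonneg_left h2 (by positivity)
  calc bt d / 2 * 2 ^ (-bt d - 2) * ((d : ℝ) ^ d)⁻¹
      ≤ (Z.card : ℝ) * (bt d / 2 * 2 ^ (-bt d - 2) * (L ^ d)⁻¹) := by
        rw [hcardZ, hL]
        push_cast
        rw [mul_pow, mul_inv]
        have h1 : ((m : ℝ)) ^ d ≤ ((m : ℝ) + 1) ^ d :=
          pow_le_pow_left₀ (Nat.cast_nonneg _) (by linarith) _
        have h2 : (0 : ℝ) < (m : ℝ) ^ d := by
          have : (0 : ℝ) < m := by exact_mod_cast hm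
          positivity
        have h3 : 1 ≤ ((m : ℝ) + 1) ^ d * ((m : ℝ) ^ d)⁻¹ := by
          rw [← div_eq_mul_inv, one_le_div h2]
          exact h1
        have h4 : 0 < bt d / 2 * 2 ^ (-bt d - 2) * ((d : ℝ) ^ d)⁻¹ := by positivity
        calc bt d / 2 * 2 ^ (-bt d - 2) * ((d : ℝ) ^ d)⁻¹
            ≤ (bt d / 2 * 2 ^ (-bt d - 2) * ((d : ℝ) ^ d)⁻¹) *
              (((m : ℝ) + 1) ^ d * ((m : ℝ) ^ d)⁻¹) := le_mul_of_one_le_right h4.le h3
          _ = _ := by ring
    _ ≤ ∑ y ∈ Z, (kk d (L ^ 2) y - PP (kk d (L ^ 2)) y) := by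
        rw [← nsmul_eq_mul]
        exact Finset.card_nsmul_le_sum _ _ _ hterm
    _ ≤ ∑ y ∈ Y, (kk d (L ^ 2) y - PP (kk d (L ^ 2)) y) :=
        Finset.sum_le_sum_of_subset_of_nonneg (fun y hy => hY y (hZ y hy)) (fun y _ _ => hnn y)

theorem pp_pos {d : ℕ} (hd : 3 ≤ d) {ν : PMF ℕ} (hν : ConditionH ν) : 0 < pp d ν ∧ pp d ν ≤ 1 := by
  have h1 : (ν 0).toReal < 1 := by
    by_contra hcon
    push Not at hcon
    have h2 : (ν 0).toReal ≤ 1 := by
      have := ENNReal.toReal_mono ENNReal.one_ne_top (ν.coe_le_one 0)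
      simpa using this
    have h3 : (ν 0).toReal = 1 := le_antisymm h2 hcon
    have h4 : ν 0 = 1 := by
      rw [← ENNReal.ofReal_toReal (ν.apply_ne_top 0), h3, ENNReal.ofReal_one]
    have h5 := (ν.apply_eq_one_iff 0).1 h4
    have h6 : (fun k : ℕ => (ν k).toReal * (k : ℝ)) = fun _ => 0 := by
      funext k
      by_cases hk : k = 0
      · rw [hk]; simp
      · have : ν k = 0 := by
          rw [ν.apply_eq_zero_iff, h5]
          exact hk
        rw [this]; simp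
    have h7 := hν.mean
    rw [h6] at h7
    have := h7.unique hasSum_zero
    norm_num at this
  have hd3 : (3 : ℝ) ≤ d := by exact_mod_cast hd
  have h0 : 0 ≤ (ν 0).toReal := ENNReal.toReal_nonneg
  unfold pp
  constructor
  · apply div_pos <;> linarith
  · rw [div_le_one (by linarith)]
    linarith

theorem PP_le {d : ℕ} {f g : Site d → ℝ} (h : ∀ x, f x ≤ g x) (x : Site d) : PP f x ≤ PP g x := by
  unfold PP
  apply div_le_div_of_nonneg_right _ (by positivity)
  exact Finset.sum_le_sum (fun e _ => h _)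

theorem t_PAR : S_PAR := by
  classical
  intro hK d ν hd hν
  obtain ⟨C, c, hC, hc, hsum⟩ := sum_lower hK hd
  obtain ⟨hp, hp1⟩ := pp_pos hd hν
  have hs : 0 < sg2 ν := hν.var
  have hb := bt_pos hd
  have hd3 : (3 : ℝ) ≤ d := by exact_mod_cast hd
  -- the choice of `m`
  have ht : Filter.Tendsto (fun m : ℕ => ((d * m : ℕ) : ℝ)) Filter.atTop Filter.atTop := by
    push_cast
    exact Filter.Tendsto.const_mul_atTop (by linarith) tendsto_natCast_atTop_atTop
  have ht2 : Filter.Tendsto (fun m : ℕ => ((d * m : ℕ) : ℝ) ^ 2) Filter.atTop Filter.atTop :=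
    (Filter.tendsto_pow_atTop (by norm_num)).comp ht
  have ht3 : Filter.Tendsto (fun m : ℕ => (((d * m : ℕ) : ℝ) ^ 2) ^ (-bt d)) Filter.atTop
      (nhds 0) := (tendsto_rpow_neg_atTop hb).comp ht2
  have ht4 : Filter.Tendsto (fun m : ℕ => sg2 ν * (((d * m : ℕ) : ℝ) ^ 2) ^ (-bt d)) Filter.atTop
      (nhds 0) := by
    have := ht3.const_mul (sg2 ν)
    rwa [mul_zero] at this
  have e1 := ht4.eventually_le_const hc
  have e2 := ht2.eventually_ge_atTop (2 * C / bt d)
  obtain ⟨m, hm1, hm2, hm3⟩ := (e1.and (e2.and (Filter.eventually_ge_atTop 1))).exists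
  have hm4 : 2 * C ≤ bt d * ((d * m : ℕ) : ℝ) ^ 2 := by
    rw [div_le_iff₀ hb] at hm2
    linarith
  obtain ⟨hPP, hY⟩ := hsum m hm3 hm4
  set L : ℝ := ((d * m : ℕ) : ℝ) with hL
  have hL3 : 3 ≤ L := by
    have : 3 ≤ d * m := by nlinarith
    rw [hL]
    exact_mod_cast this
  set k : Site d → ℝ := kk d (L ^ 2) with hk
  have hkpos : ∀ x, 0 < k x := fun x => kk_pos (by positivity) x
  set T : ℝ := PP (PP k) 0 with hT
  have hT0 : 0 ≤ T := by
    rw [hT]
    unfold PP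
    apply div_nonneg _ (by positivity)
    apply Finset.sum_nonneg
    intro e _
    apply div_nonneg _ (by positivity)
    exact Finset.sum_nonneg (fun e _ => (hkpos _).le)
  have hTk : T ≤ (L ^ 2) ^ (-bt d) := by
    have h1 : T ≤ PP k 0 := PP_le hPP 0
    have h2 : PP k 0 ≤ k 0 := hPP 0
    have h3 : k 0 = (L ^ 2) ^ (-bt d) := by
      rw [hk]
      unfold kk nsq
      simp
    linarith
  have hsT : sg2 ν * T ≤ c := (mul_le_mul_of_nonneg_left hTk hs.le).trans hm1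
  have hB : 0 < c⁻¹ * sg2 ν * T + 1 := by positivity
  set B : ℝ := c⁻¹ * sg2 ν * T + 1 with hBdef
  set l : ℕ := d * m with hl
  let g : ℕ → ℝ := fun j => B * ∑ i ∈ Finset.range (l - j), ((pp d ν)⁻¹) ^ (i + 1)
  have hg : ∀ j, g j = B * ∑ i ∈ Finset.range (l - j), ((pp d ν)⁻¹) ^ (i + 1) := fun _ => rfl
  have hpinv : 0 < (pp d ν)⁻¹ := inv_pos.2 hp
  have hg0 : ∀ j, 0 ≤ g j := by
    intro j
    rw [hg]
    exact mul_nonneg hB.le (Finset.sum_nonneg (fun i _ => by positivity))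
  have hganti : Antitone g := by
    intro i j hij
    rw [hg, hg]
    apply mul_le_mul_of_nonneg_left _ hB.le
    apply Finset.sum_le_sum_of_subset_of_nonneg
    · apply Finset.range_mono
      omega
    · intro i _ _
      positivity
  refine ⟨k, l, c⁻¹, (B + g 1) / pp d ν, g, 1, ?_, le_rfl, ?_⟩
  · refine ⟨inv_pos.2 hc, ?_, hg0, hganti, ?_, ?_, fun x => (hkpos x).le, ?_, hPP, ?_, ?_, ?_⟩
    · apply div_pos _ hp
      have := hg0 1
      linarith
    · intro j hj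
      have h1 := hganti hj
      have h2 : B + g 1 ≤ (B + g 1) / pp d ν := by
        rw [le_div_iff₀ hp]
        have := hg0 1
        nlinarith
      linarith
    · intro j hj
      rw [hg]
      have : l - j = 0 := by omega
      rw [this]
      simp
    · intro x
      rw [hk]
      unfold kk
      rw [nsq_neg']
    · rw [mul_div_cancel₀ _ hp.ne']
      linarith
    · intro j hj2 hjl
      have h1 : l - (j - 1) = (l - j) + 1 := by omega
      have h2 : pp d ν * g (j - 1) = B + g j := by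
        rw [hg, hg, h1, Finset.sum_range_succ']
        have h3 : pp d ν * (B * (∑ i ∈ Finset.range (l - j), ((pp d ν)⁻¹) ^ (i + 1 + 1) +
            ((pp d ν)⁻¹) ^ (0 + 1))) =
            B * (∑ i ∈ Finset.range (l - j), pp d ν * ((pp d ν)⁻¹) ^ (i + 1 + 1) +
              pp d ν * (pp d ν)⁻¹) := by
          rw [← Finset.mul_sum]
          ring
        rw [h3, mul_inv_cancel₀ hp.ne']
        have h4 : ∀ i ∈ Finset.range (l - j), pp d ν * ((pp d ν)⁻¹) ^ (i + 1 + 1) =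
            ((pp d ν)⁻¹) ^ (i + 1) := by
          intro i _
          rw [pow_succ (pp d ν)⁻¹ (i + 1), mul_comm, mul_assoc, inv_mul_cancel₀ hp.ne', mul_one]
        rw [Finset.sum_congr rfl h4]
        ring
      rw [h2]
      linarith
    · intro Y hYl
      have h1 := hY Y hYl
      have h2 : c⁻¹ * sg2 ν * T ≤ 1 := by
        rw [mul_assoc, inv_mul_le_iff₀ hc]
        linarith
      have h3 : 1 ≤ c⁻¹ * ∑ y ∈ Y, (k y - PP k y) := by
        rw [le_inv_mul_iff₀ hc, mul_one]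
        exact h1
      linarith
  · intro x
    rw [one_mul, hk]
    unfold kk
    apply Real.rpow_le_rpow_of_nonpos
    · have := nsq_nonneg x
      linarith
    · have : (1 : ℝ) ≤ L ^ 2 := by nlinarith
      linarith
    · linarith

end Pool.Agent.H61.BD
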